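import Pool.Agent.Helper83.TW.Goals1

/-! Packet TW-GRESB, part 1: bounds for the error function near a resonant rotation number. -/

set_option autoImplicit false

namespace Pool.Agent.Helper10.TW

open Complex Set Pool.Agent.Helper83.TW

/-- horizontal strip -/
def strip (r : ℝ) : Set ℂ := {z | |z.im| < r}

theorem isOpen_strip (r : ℝ) : IsOpen (strip r) :=
  isOpen_lt (continuous_abs.comp continuous_im) continuous_const

theorem convex_strip (r : ℝ) : Convex ℝ (strip r) := by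
  have h : strip r = Complex.imLm ⁻¹' (Set.Ioo (-r) r) := by
    ext z
    simp [strip, abs_lt]
  rw [h]
  exact (convex_Ioo (-r) r).linear_preimage Complex.imLm

theorem strip_mono {r r' : ℝ} (h : r' ≤ r) : strip r' ⊆ strip r := by
  intro z hz
  exact lt_of_lt_of_le hz h

theorem cauchy_strip (hC : GCau) {f : ℂ → ℂ} {B r1 δ : ℝ} (hδ : 0 < δ)
    (hf : DifferentiableOn ℂ f (strip r1)) (hb : ∀ z ∈ strip r1, ‖f z‖ ≤ B) :
    ∀ z ∈ strip (r1 - δ), ‖deriv f z‖ ≤ B / δ := by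
  intro z hz
  have hsub : Metric.ball z δ ⊆ strip r1 := by
    intro x hx
    have h1 : ‖x - z‖ < δ := by simpa [dist_eq_norm] using hx
    have h2 : |x.im - z.im| ≤ ‖x - z‖ := by
      rw [← Complex.sub_im]
      exact Complex.abs_im_le_norm _
    have h3 : |z.im| < r1 - δ := hz
    have h4 : |x.im| ≤ |x.im - z.im| + |z.im| := by
      have := abs_add_le (x.im - z.im) z.im
      simpa using this
    change |x.im| < r1
    linarith
  exact hC.1 f z B δ hδ (hf.mono hsub) (fun x hx => hb x (hsub hx))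

theorem lip_of_deriv {f : ℂ → ℂ} {K : ℝ} {U : Set ℂ} (hU : IsOpen U) (hc : Convex ℝ U)
    (hf : DifferentiableOn ℂ f U) (hd : ∀ z ∈ U, ‖deriv f z‖ ≤ K) :
    ∀ x ∈ U, ∀ y ∈ U, ‖f x - f y‖ ≤ K * ‖x - y‖ := by
  intro x hx y hy
  exact hc.norm_image_sub_le_of_norm_deriv_le
    (fun z hz => (hf z hz).differentiableAt (hU.mem_nhds hz)) hd hy hx

theorem num_facts {ρ r s δ Λ η : ℝ} {M : ℕ} (h : Prm ρ r s δ Λ η M) :
    Λ ^ 7 * η ≤ δ ∧ 2 * (Λ ^ 6 * η) < δ ∧ 1 ≤ Λ * δ ∧ Λ ^ 12 * η ≤ 1 / 1024 := by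
  have hL : (1024:ℝ) ≤ Λ := h.hΛ
  have hL0 : (0:ℝ) < Λ := by linarith
  have hη0 := h.hη0
  have hδ1 : 1 ≤ Λ * δ := h.M_le
  have h13 : Λ ^ 13 * η ≤ 1 := by
    have : Λ ^ 13 * η ≤ Λ ^ 40 * η := by
      apply mul_le_mul_of_nonneg_right _ hη0.le
      exact pow_le_pow_right₀ (by linarith) (by norm_num)
    linarith [h.hη]
  have h12 : Λ ^ 12 * η ≤ 1 / 1024 := by
    have h1 : 1024 * (Λ ^ 12 * η) ≤ Λ ^ 13 * η := by
      have h2 : Λ ^ 13 * η = Λ * (Λ ^ 12 * η) := by ring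
      rw [h2]
      apply mul_le_mul_of_nonneg_right hL (by positivity)
    linarith
  have h8 : Λ ^ 8 * η ≤ 1 := by
    have : Λ ^ 8 * η ≤ Λ ^ 40 * η := by
      apply mul_le_mul_of_nonneg_right _ hη0.le
      exact pow_le_pow_right₀ (by linarith) (by norm_num)
    linarith [h.hη]
  have h7 : Λ ^ 7 * η ≤ δ := by
    have h1 : Λ * (Λ ^ 7 * η) ≤ Λ * δ := by
      have h2 : Λ * (Λ ^ 7 * η) = Λ ^ 8 * η := by ring
      linarith
    exact le_of_mul_le_mul_left h1 hL0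
  refine ⟨h7, ?_, hδ1, h12⟩
  have h1 : 2 * (Λ ^ 6 * η) < Λ * (Λ ^ 6 * η) := by
    apply mul_lt_mul_of_pos_right (by linarith) (by positivity)
  have h2 : Λ * (Λ ^ 6 * η) = Λ ^ 7 * η := by ring
  linarith

section

variable {ρ r s δ Λ η : ℝ} {M : ℕ} {g : ℂ × ℂ → ℂ} {S : St} {c : ℝ}

theorem err_bounds (hE1 : GEE1) (hF : GF) (hC : GCau) (hP : Prm ρ r s δ Λ η M) (hg : GB g ρ)
    (hS : Ok S r s c) (hc : c ≤ ρ/64) (hη : ∀ p ∈ Dom (r - δ) s, ‖Err g S p‖ ≤ η) :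
    (∀ p ∈ Dom (r - 2*δ) s, ‖D1 (Err g S) p‖ ≤ Λ * η) ∧
    (∀ p ∈ Dom (r - 2*δ) (3/4*s), ‖FF g S p‖ ≤ 20 * Λ * η) := by
  have hE := hE1 ρ r s δ Λ η M hP g hg S c hS hc
  have hErr : DifferentiableOn ℂ (Err g S) (Dom (r - δ) s) := hE.2.2.1.diff
  have hδ0 := hP.hδ0
  have hs0 := hP.hs0
  have hη0 := hP.hη0
  have hL0 : (0:ℝ) < Λ := by linarith [hP.hΛ]
  have hΛδ : 1 ≤ Λ * δ := hP.M_le
  have b1 : ∀ p ∈ Dom (r - 2*δ) s, ‖D1 (Err g S) p‖ ≤ Λ * η := by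
    intro p hp
    have h1 := hC.2.1 (Err g S) η (r - δ) s δ hδ0 hErr hη p (by
      have : r - δ - δ = r - 2*δ := by ring
      rw [this]; exact hp)
    have h2 : η / δ ≤ Λ * η := by
      rw [div_le_iff₀ hδ0]
      nlinarith
    linarith
  refine ⟨b1, ?_⟩
  intro p hp
  have hp1 : p ∈ Dom (r - 2*δ) s := Dom_mono le_rfl (by linarith) hp
  have hp2 : p ∈ Dom (r - δ) (3/4*s) := Dom_mono (by linarith) le_rfl hp
  have hp3 : p ∈ Dom (r - δ) s := Dom_mono (by linarith) le_rfl hp1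
  have h1 := b1 p hp1
  have h2 := hC.2.2.1 (Err g S) η (r - δ) s (s/4) (by linarith) hErr hη p (by
      have : s - s/4 = 3/4*s := by ring
      rw [this]; exact hp2)
  have h3 : η / (s/4) ≤ 4 * (Λ * η) := by
    rw [div_le_iff₀ (by linarith)]
    nlinarith [hP.hΛs]
  have h4 := (hF ρ r s δ Λ η M hP g hg S c hS hc p hp3).1
  linarith

/-- differentiability of slices -/
theorem slice {F : ℂ → ℂ → ℂ} {R δ : ℝ}
    (h : DifferentiableOn ℂ (fun q : ℂ × ℂ => F q.1 q.2) {q | |q.1.im| < R ∧ ‖q.2‖ < δ})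
    {z : ℂ} (hz : ‖z‖ < δ) : DifferentiableOn ℂ (fun α => F α z) (strip R) := by
  have h2 : DifferentiableOn ℂ (fun α : ℂ => ((α, z) : ℂ × ℂ)) (strip R) := by
    fun_prop
  have h3 : MapsTo (fun α : ℂ => ((α, z) : ℂ × ℂ)) (strip R)
      {q : ℂ × ℂ | |q.1.im| < R ∧ ‖q.2‖ < δ} := fun α hα => ⟨hα, hz⟩
  exact h.comp h2 h3

/-- the bounds used for the fixed point problem, abstract version -/
theorem bounds_abs (hC : GCau) (hP : Prm ρ r s δ Λ η M) (E Ez Ea : ℂ → ℂ → ℂ)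
    (hd1 : ∀ α ∈ strip (r - 2*δ), ∀ z : ℂ, ‖z‖ < δ → HasDerivAt (fun y => E α y) (Ez α z) z)
    (hd2 : ∀ α ∈ strip (r - 2*δ), ∀ z : ℂ, ‖z‖ < δ → HasDerivAt (fun β => E β z) (Ea α z) α)
    (hdz : DifferentiableOn ℂ (fun q : ℂ × ℂ => Ez q.1 q.2) {q | |q.1.im| < r - 2*δ ∧ ‖q.2‖ < δ})
    (hda : DifferentiableOn ℂ (fun q : ℂ × ℂ => Ea q.1 q.2) {q | |q.1.im| < r - 2*δ ∧ ‖q.2‖ < δ})
    (hQ1 : ∀ α ∈ strip (r - 2*δ), ∀ z z' : ℂ, ‖z‖ < δ → ‖z'‖ < δ →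
      ‖(Ez α z - z) - (Ez α z' - z')‖ ≤ ‖z - z'‖ / 16)
    (hQ2 : ∀ α ∈ strip (r - 2*δ), ∀ z : ℂ, ‖z‖ < δ →
      ‖E α z - E α 0 - Ez α 0 * z‖ ≤ 2 * ‖z‖ ^ 2)
    (hη : ∀ α ∈ strip (r - 2*δ), ‖E α 0‖ ≤ η)
    (hFF : ∀ α ∈ strip (r - 2*δ), ‖Ez α 0‖ ≤ 20 * Λ * η) :
    (∀ α ∈ strip (r - 2*δ), ∀ z : ℂ, ‖z‖ < δ →
      ‖Ez α z - z‖ ≤ 20 * Λ * η + ‖z‖ / 16) ∧
    (∀ α ∈ strip (r - 3*δ), ∀ z : ℂ, ‖z‖ < 2 * (Λ^6 * η) → ‖Ea α z‖ ≤ 20 * Λ * η) ∧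
    (∀ α ∈ strip (r - 3*δ), ∀ α' ∈ strip (r - 3*δ), ∀ z z' : ℂ,
      ‖z‖ < 2 * (Λ^6 * η) → ‖z'‖ < 2 * (Λ^6 * η) →
      ‖Ea α z - Ea α' z'‖ ≤ Λ^8 * η * (‖α - α'‖ + ‖z - z'‖)) ∧
    (∀ α ∈ strip (r - 3*δ), ∀ α' ∈ strip (r - 3*δ), ∀ z z' : ℂ,
      ‖z‖ < 2 * (Λ^6 * η) → ‖z'‖ < 2 * (Λ^6 * η) →
      ‖(Ez α z - z) - (Ez α' z' - z')‖
        ≤ Λ^8 * η * ‖α - α'‖ + ‖z - z'‖ / 16) := by
  obtain ⟨n7, n6, nδ, n12⟩ := num_facts hP
  have hδ0 := hP.hδ0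
  have hs0 := hP.hs0
  have hη0 := hP.hη0
  have hL : (1024:ℝ) ≤ Λ := hP.hΛ
  have hL0 : (0:ℝ) < Λ := by linarith
  have p1 : (1:ℝ) ≤ Λ := by linarith
  have hνpos : 0 < Λ ^ 6 * η := by positivity
  -- B
  have hB : ∀ α ∈ strip (r - 2*δ), ∀ z : ℂ, ‖z‖ < δ →
      ‖Ez α z - z‖ ≤ 20 * Λ * η + ‖z‖ / 16 := by
    intro α hα z hz
    have h1 := hQ1 α hα z 0 hz (by simpa using hδ0)
    have h2 := hFF α hα
    simp only [sub_zero] at h1
    have h4 : ‖Ez α z - z‖ ≤ ‖(Ez α z - z) - Ez α 0‖ + ‖Ez α 0‖ := by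
      have := norm_add_le ((Ez α z - z) - Ez α 0) (Ez α 0)
      simpa using this
    linarith
  -- Ez itself
  have e1 : 20 * Λ * η ≤ Λ ^ 6 * η := by
    apply mul_le_mul_of_nonneg_right _ hη0.le
    have h6 : Λ ^ 6 = Λ * Λ ^ 5 := by ring
    rw [h6]
    have h5 : (20:ℝ) ≤ Λ ^ 5 := by
      calc (20:ℝ) ≤ Λ := by linarith
        _ ≤ Λ ^ 5 := le_self_pow₀ p1 (by norm_num)
    nlinarith
  have hEz : ∀ α ∈ strip (r - 2*δ), ∀ z : ℂ, ‖z‖ < 2 * (Λ^6 * η) →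
      ‖Ez α z‖ ≤ Λ ^ 7 * η := by
    intro α hα z hz
    have h1 := hB α hα z (by linarith)
    have h2 : ‖Ez α z‖ ≤ ‖Ez α z - z‖ + ‖z‖ := by
      have := norm_add_le (Ez α z - z) z
      simpa using this
    have h3 : 20 * Λ * η + 17 / 8 * (Λ ^ 6 * η) ≤ Λ ^ 7 * η := by
      have e2 : Λ ^ 7 * η = Λ * (Λ ^ 6 * η) := by ring
      rw [e2]
      nlinarith
    linarith
  -- E itself
  have hEE : ∀ α ∈ strip (r - 2*δ), ∀ z : ℂ, ‖z‖ < 2 * (Λ^6 * η) → ‖E α z‖ ≤ 2 * η := by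
    intro α hα z hz
    have h1 := hQ2 α hα z (by linarith)
    have h2 : ‖E α 0‖ ≤ η := hη α hα
    have h3 : ‖Ez α 0‖ ≤ 20 * Λ * η := hFF α hα
    have h4 : ‖E α z‖ ≤ ‖E α z - E α 0 - Ez α 0 * z‖ + ‖E α 0‖ + ‖Ez α 0‖ * ‖z‖ := by
      have := norm_add₃_le (a := E α z - E α 0 - Ez α 0 * z) (b := E α 0) (c := Ez α 0 * z)
      rw [norm_mul] at this
      have e : E α z - E α 0 - Ez α 0 * z + E α 0 + Ez α 0 * z = E α z := by ring
      rw [e] at this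
      exact this
    have hz0 : 0 ≤ ‖z‖ := norm_nonneg z
    have h5 : ‖Ez α 0‖ * ‖z‖ ≤ (20 * Λ * η) * (2 * (Λ^6 * η)) :=
      mul_le_mul h3 hz.le hz0 (by positivity)
    have h6 : ‖z‖ ^ 2 ≤ (2 * (Λ^6 * η)) ^ 2 := pow_le_pow_left₀ hz0 hz.le 2
    have h7 : (20 * Λ * η) * (2 * (Λ^6 * η)) = (40 * (Λ ^ 7 * η)) * η := by ring
    have h8 : 2 * (2 * (Λ^6 * η)) ^ 2 = (8 * (Λ ^ 12 * η)) * η := by ring
    have h9 : Λ ^ 7 * η ≤ (Λ ^ 12 * η) / 1024 := by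
      have h12 : Λ ^ 12 * η = Λ ^ 5 * (Λ ^ 7 * η) := by ring
      have h10 : (1024:ℝ) ≤ Λ ^ 5 := hL.trans (le_self_pow₀ p1 (by norm_num))
      have h11 : 0 < Λ ^ 7 * η := by positivity
      rw [le_div_iff₀ (by norm_num)]
      nlinarith
    have h10 : (40 * (Λ ^ 7 * η)) * η + (8 * (Λ ^ 12 * η)) * η ≤ η := by
      have : 40 * (Λ ^ 7 * η) + 8 * (Λ ^ 12 * η) ≤ 1 := by linarith
      nlinarith
    linarith
  -- differentiability in α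
  have dEE : ∀ z : ℂ, ‖z‖ < δ → DifferentiableOn ℂ (fun α => E α z) (strip (r - 2*δ)) := by
    intro z hz α hα
    exact (hd2 α hα z hz).differentiableAt.differentiableWithinAt
  have dEEz : ∀ z : ℂ, ‖z‖ < δ → DifferentiableOn ℂ (fun α => Ez α z - z) (strip (r - 2*δ)) :=
    fun z hz => (slice hdz hz).sub_const z
  have dEEa : ∀ z : ℂ, ‖z‖ < δ → DifferentiableOn ℂ (fun α => Ea α z) (strip (r - 2*δ)) :=
    fun z hz => slice hda hz
  have hdivδ : ∀ x : ℝ, 0 ≤ x → x / δ ≤ Λ * x := by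
    intro x hx
    rw [div_le_iff₀ hδ0]
    nlinarith
  -- bound of A on the strip r - 5δ/2
  have hA : ∀ α ∈ strip (r - 2*δ - δ/2), ∀ z : ℂ, ‖z‖ < 2 * (Λ^6 * η) →
      ‖Ea α z‖ ≤ 4 * (Λ * η) := by
    intro α hα z hz
    have hzδ : ‖z‖ < δ := by linarith
    have h1 := cauchy_strip hC (half_pos hδ0) (dEE z hzδ) (fun β hβ => hEE β hβ z hz) α hα
    rw [(hd2 α (strip_mono (by linarith) hα) z hzδ).deriv] at h1
    have h2 : 2 * η / (δ/2) = 4 * (η / δ) := by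
      field_simp
      ring
    rw [h2] at h1
    have h3 := hdivδ η hη0.le
    linarith
  have hAlipα : ∀ z : ℂ, ‖z‖ < 2 * (Λ^6 * η) → ∀ α ∈ strip (r - 3*δ),
      ∀ α' ∈ strip (r - 3*δ), ‖Ea α z - Ea α' z‖ ≤ Λ^8 * η * ‖α - α'‖ := by
    intro z hz α hα α' hα'
    have hzδ : ‖z‖ < δ := by linarith
    have h1 : ∀ β ∈ strip (r - 3*δ), ‖deriv (fun α => Ea α z) β‖ ≤ Λ^8 * η := by
      intro β hβ
      have h2 := cauchy_strip hC (half_pos hδ0)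
        ((dEEa z hzδ).mono (strip_mono (by linarith : r - 2*δ - δ/2 ≤ r - 2*δ)))
        (fun β hβ => hA β hβ z hz) β (strip_mono (by linarith) hβ)
      have h3 : 4 * (Λ * η) / (δ/2) = 8 * (Λ * η / δ) := by
        field_simp
        ring
      rw [h3] at h2
      have h4 := hdivδ (Λ * η) (by positivity)
      have h5 : 8 * (Λ * (Λ * η)) ≤ Λ ^ 8 * η := by
        have h8 : Λ ^ 8 * η = Λ ^ 6 * (Λ * (Λ * η)) := by ring
        rw [h8]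
        apply mul_le_mul_of_nonneg_right _ (by positivity)
        calc (8:ℝ) ≤ Λ := by linarith
          _ ≤ Λ ^ 6 := le_self_pow₀ p1 (by norm_num)
      linarith
    exact lip_of_deriv (isOpen_strip _) (convex_strip _)
      ((dEEa z hzδ).mono (strip_mono (by linarith))) h1 α hα α' hα'
  have hAlipz : ∀ α ∈ strip (r - 3*δ), ∀ z z' : ℂ, ‖z‖ < 2 * (Λ^6 * η) →
      ‖z'‖ < 2 * (Λ^6 * η) → ‖Ea α z - Ea α z'‖ ≤ Λ^8 * η * ‖z - z'‖ := by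
    intro α hα z z' hz hz'
    have hzδ : ‖z‖ < δ := by linarith
    have hzδ' : ‖z'‖ < δ := by linarith
    have hα2 : α ∈ strip (r - 2*δ) := strip_mono (by linarith) hα
    have h1 : ∀ β ∈ strip (r - 2*δ), ‖E β z - E β z'‖ ≤ Λ^7 * η * ‖z - z'‖ := by
      intro β hβ
      have hd : DifferentiableOn ℂ (fun y => E β y) (Metric.ball 0 (2 * (Λ^6 * η))) := by
        intro y hy
        have hy1 : ‖y‖ < 2 * (Λ^6 * η) := by simpa using hy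
        exact (hd1 β hβ y (by linarith)).differentiableAt.differentiableWithinAt
      have hd2' : ∀ y ∈ Metric.ball (0:ℂ) (2 * (Λ^6 * η)),
          ‖deriv (fun y => E β y) y‖ ≤ Λ ^ 7 * η := by
        intro y hy
        have hy1 : ‖y‖ < 2 * (Λ^6 * η) := by simpa using hy
        rw [(hd1 β hβ y (by linarith)).deriv]
        exact hEz β hβ y hy1
      exact lip_of_deriv Metric.isOpen_ball (convex_ball _ _) hd hd2' z (by simpa using hz)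
        z' (by simpa using hz')
    have h2 := cauchy_strip hC hδ0 ((dEE z hzδ).sub (dEE z' hzδ')) (fun β hβ => h1 β hβ) α
      (strip_mono (by linarith) hα)
    have h3 : deriv ((fun α => E α z) - fun α => E α z') α = Ea α z - Ea α z' :=
      ((hd2 α hα2 z hzδ).sub (hd2 α hα2 z' hzδ')).deriv
    rw [h3] at h2
    have h4 := hdivδ (Λ^7 * η * ‖z - z'‖) (by positivity)
    have h5 : Λ * (Λ^7 * η * ‖z - z'‖) = Λ^8 * η * ‖z - z'‖ := by ring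
    linarith
  refine ⟨hB, ?_, ?_, ?_⟩
  · intro α hα z hz
    have h1 := hA α (strip_mono (by linarith) hα) z hz
    have : 0 < Λ * η := by positivity
    linarith
  · intro α hα α' hα' z z' hz hz'
    have h1 := hAlipα z hz α hα α' hα'
    have h2 := hAlipz α' hα' z z' hz hz'
    have h3 : ‖Ea α z - Ea α' z'‖ ≤ ‖Ea α z - Ea α' z‖ + ‖Ea α' z - Ea α' z'‖ :=
      norm_sub_le_norm_sub_add_norm_sub _ _ _
    rw [mul_add]
    linarith
  · intro α hα α' hα' z z' hz hz'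
    have hzδ : ‖z‖ < δ := by linarith
    have hzδ' : ‖z'‖ < δ := by linarith
    have h1 : ∀ β ∈ strip (r - 3*δ), ‖deriv (fun α => Ez α z - z) β‖ ≤ Λ^8 * η := by
      intro β hβ
      have hb : ∀ β ∈ strip (r - 2*δ), ‖Ez β z - z‖ ≤ 20 * Λ * η + (Λ^6 * η) / 8 := by
        intro β hβ
        have := hB β hβ z hzδ
        linarith
      have h2 := cauchy_strip hC hδ0 (dEEz z hzδ) hb β (strip_mono (by linarith) hβ)
      have h4 := hdivδ (20 * Λ * η + (Λ^6 * η) / 8) (by positivity)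
      have h5 : Λ * (20 * Λ * η + (Λ^6 * η) / 8) ≤ Λ ^ 8 * η := by
        have e2 : Λ ^ 8 * η = Λ * (Λ * (Λ ^ 6 * η)) := by ring
        rw [e2]
        apply mul_le_mul_of_nonneg_left _ hL0.le
        nlinarith
      linarith
    have h2 := lip_of_deriv (isOpen_strip _) (convex_strip _)
      ((dEEz z hzδ).mono (strip_mono (by linarith))) h1 α hα α' hα'
    have h3 := hQ1 α' (strip_mono (by linarith) hα') z z' hzδ hzδ'
    have h4 : ‖(Ez α z - z) - (Ez α' z' - z')‖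
        ≤ ‖(Ez α z - z) - (Ez α' z - z)‖ + ‖(Ez α' z - z) - (Ez α' z' - z')‖ :=
      norm_sub_le_norm_sub_add_norm_sub _ _ _
    linarith

end

end Pool.Agent.Helper10.TW
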