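import Pool.Agent.Helper10.TW.ResB1

/-! Packet TW-GRESB, part 2: the perturbed resonant orbits. -/

set_option autoImplicit false

namespace Pool.Agent.Helper10.TW

open Complex Set Pool.Agent.Helper83.TW Filter Topology

/-! ### The identity theorem on a strip -/

theorem eq_const_of_real {f : ℂ → ℂ} {R : ℝ} {C : ℂ} (hR : 0 < R)
    (hf : DifferentiableOn ℂ f (strip R)) (hreal : ∀ t : ℝ, f (t : ℂ) = C) :
    ∀ α ∈ strip R, f α = C := by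
  have h1 : AnalyticOnNhd ℂ f (strip R) := hf.analyticOnNhd (isOpen_strip R)
  have h2 : AnalyticOnNhd ℂ (fun _ : ℂ => C) (strip R) := analyticOnNhd_const
  have h0 : (0:ℂ) ∈ strip R := by
    change |(0:ℂ).im| < R
    simpa using hR
  have hfr : ∃ᶠ z in 𝓝[≠] (0:ℂ), f z = C := by
    have ht : Tendsto (fun n : ℕ => ((1 / ((n:ℝ) + 1) : ℝ) : ℂ)) atTop (𝓝[≠] (0:ℂ)) := by
      rw [tendsto_nhdsWithin_iff]
      constructor
      · have h3 : Tendsto (fun n : ℕ => (1 / ((n:ℝ) + 1) : ℝ)) atTop (𝓝 0) :=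
          tendsto_one_div_add_atTop_nhds_zero_nat
        have h4 := (Complex.continuous_ofReal.tendsto 0).comp h3
        rw [Complex.ofReal_zero] at h4
        exact h4
      · apply Eventually.of_forall
        intro n
        have : ((n:ℝ) + 1) ≠ 0 := by positivity
        simp only [mem_compl_iff, mem_singleton_iff, ofReal_eq_zero]
        positivity
    exact ht.frequently (Frequently.of_forall fun n => hreal _)
  exact h1.eqOn_of_preconnected_of_frequently_eq h2 (convex_strip R).isPreconnected h0 hfr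

/-! ### Application of the abstract fixed point problem -/

section

variable {ρ r s δ Λ η : ℝ} {M : ℕ}

theorem resA_apply (hA : GRESA) (hC : GCau) (hP : Prm ρ r s δ Λ η M) (E Ez Ea : ℂ → ℂ → ℂ)
    (hd1 : ∀ α ∈ strip (r - 2*δ), ∀ z : ℂ, ‖z‖ < δ → HasDerivAt (fun y => E α y) (Ez α z) z)
    (hd2 : ∀ α ∈ strip (r - 2*δ), ∀ z : ℂ, ‖z‖ < δ → HasDerivAt (fun β => E β z) (Ea α z) α)
    (hdz : DifferentiableOn ℂ (fun q : ℂ × ℂ => Ez q.1 q.2) {q | |q.1.im| < r - 2*δ ∧ ‖q.2‖ < δ})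
    (hda : DifferentiableOn ℂ (fun q : ℂ × ℂ => Ea q.1 q.2) {q | |q.1.im| < r - 2*δ ∧ ‖q.2‖ < δ})
    (hsz : ∀ α ∈ strip (r - 2*δ), ∀ z : ℂ, ‖z‖ < δ → Ez (cj α) (cj z) = cj (Ez α z))
    (hsa : ∀ α ∈ strip (r - 2*δ), ∀ z : ℂ, ‖z‖ < δ → Ea (cj α) (cj z) = cj (Ea α z))
    (hQ1 : ∀ α ∈ strip (r - 2*δ), ∀ z z' : ℂ, ‖z‖ < δ → ‖z'‖ < δ →
      ‖(Ez α z - z) - (Ez α z' - z')‖ ≤ ‖z - z'‖ / 16)
    (hQ2 : ∀ α ∈ strip (r - 2*δ), ∀ z : ℂ, ‖z‖ < δ →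
      ‖E α z - E α 0 - Ez α 0 * z‖ ≤ 2 * ‖z‖ ^ 2)
    (hη : ∀ α ∈ strip (r - 2*δ), ‖E α 0‖ ≤ η)
    (hFF : ∀ α ∈ strip (r - 2*δ), ‖Ez α 0‖ ≤ 20 * Λ * η)
    (m : ℕ) (hm : 1 ≤ m) (hmΛ : (m:ℝ) ≤ Λ) (w0 : ℝ) :
    ∃ z : ℕ → ℂ → ℂ, (∀ i, DifferentiableOn ℂ (z i) (strip (r - 4*δ))) ∧
      ∀ α ∈ strip (r - 4*δ),
        (∀ i, ‖z i α‖ ≤ Λ^6 * η ∧ z i (cj α) = cj (z i α)) ∧
        (∀ i, i ≤ m → pt w0 z α i ∈ strip (r - 3*δ)) ∧
        ∑ i ∈ Finset.range m, z i α = 0 ∧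
        (∀ i, i + 1 < m →
          Ez (pt w0 z α (i+1)) (z (i+1) α)
            = Ez (pt w0 z α i) (z i α) + Ea (pt w0 z α (i+1)) (z (i+1) α)) := by
  obtain ⟨bB, bA, bLA, bLB⟩ := bounds_abs hC hP E Ez Ea hd1 hd2 hdz hda hQ1 hQ2 hη hFF
  obtain ⟨n7, n6, nδ, n12⟩ := num_facts hP
  have hδ0 := hP.hδ0
  have hη0 := hP.hη0
  have hL : (1024:ℝ) ≤ Λ := hP.hΛ
  have hL0 : (0:ℝ) < Λ := by linarith
  have p1 : (1:ℝ) ≤ Λ := by linarith
  have hm1 : (1:ℝ) ≤ (m:ℝ) := by exact_mod_cast hm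
  have hsub : ∀ q : ℂ × ℂ, |q.1.im| < r - 3*δ ∧ ‖q.2‖ < 2 * (Λ^6 * η) →
      |q.1.im| < r - 2*δ ∧ ‖q.2‖ < δ := fun q hq => ⟨by linarith [hq.1], by linarith [hq.2]⟩
  have c1 : (m:ℝ) * (Λ^6 * η) ≤ δ := by
    have h1 : (m:ℝ) * (Λ^6 * η) ≤ Λ * (Λ^6 * η) := mul_le_mul_of_nonneg_right hmΛ (by positivity)
    have h2 : Λ * (Λ^6 * η) = Λ^7 * η := by ring
    linarith
  have c2 : 4 * ((m:ℝ) + 1) * (20 * Λ * η) ≤ Λ^6 * η := by
    have h1 : 4 * ((m:ℝ) + 1) * (20 * Λ * η) ≤ 4 * (2 * Λ) * (20 * Λ * η) := by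
      apply mul_le_mul_of_nonneg_right _ (by positivity)
      linarith
    have h2 : 4 * (2 * Λ) * (20 * Λ * η) = 160 * (Λ^2 * η) := by ring
    have h3 : 160 * (Λ^2 * η) ≤ Λ^6 * η := by
      have h4 : Λ^6 * η = Λ^4 * (Λ^2 * η) := by ring
      rw [h4]
      apply mul_le_mul_of_nonneg_right _ (by positivity)
      calc (160:ℝ) ≤ Λ := by linarith
        _ ≤ Λ ^ 4 := le_self_pow₀ p1 (by norm_num)
    linarith
  have c3 : 16 * (m:ℝ) * ((m:ℝ) + 2) * (Λ^8 * η) ≤ 1 := by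
    have h1 : 16 * (m:ℝ) * ((m:ℝ) + 2) ≤ 16 * Λ * (3 * Λ) := by
      apply mul_le_mul _ _ (by positivity) (by positivity)
      · linarith
      · linarith
    have h2 : 16 * (m:ℝ) * ((m:ℝ) + 2) * (Λ^8 * η) ≤ 16 * Λ * (3 * Λ) * (Λ^8 * η) :=
      mul_le_mul_of_nonneg_right h1 (by positivity)
    have h3 : 16 * Λ * (3 * Λ) * (Λ^8 * η) = 48 * (Λ^10 * η) := by ring
    have h4 : Λ^10 * η ≤ Λ^12 * η := by
      apply mul_le_mul_of_nonneg_right _ hη0.le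
      exact pow_le_pow_right₀ p1 (by norm_num)
    linarith
  obtain ⟨z, hz1, hz2⟩ := hA (r - 3*δ) δ (Λ^6 * η) (20 * Λ * η) (Λ^8 * η) w0 m Ea
    (fun α z => Ez α z - z) hδ0 (by positivity) hm (by positivity) (by positivity) c1 c2 c3
    (hda.mono hsub) ((hdz.mono hsub).sub (by fun_prop))
    (fun α z hα hz => hsa α (strip_mono (by linarith : r - 3*δ ≤ r - 2*δ) hα) z (by linarith))
    (fun α z hα hz => by
      have := hsz α (strip_mono (by linarith : r - 3*δ ≤ r - 2*δ) hα) z (by linarith)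
      simp only [this, map_sub])
    (fun α z hα hz => bA α hα z hz)
    (fun α z hα hz => bB α (strip_mono (by linarith : r - 3*δ ≤ r - 2*δ) hα) z (by linarith))
    (fun α α' z z' hα hα' hz hz' => bLA α hα α' hα' z z' hz hz')
    (fun α α' z z' hα hα' hz hz' => bLB α hα α' hα' z z' hz hz')
  have e4 : r - 3*δ - δ = r - 4*δ := by ring
  rw [e4] at hz1 hz2
  refine ⟨z, hz1, ?_⟩
  intro α hα
  obtain ⟨q1, q2, q3, q4⟩ := hz2 α hα
  refine ⟨q1, q2, q3, ?_⟩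
  intro i hi
  have := q4 i hi
  linear_combination this

theorem pt_zero (w0 : ℝ) (z : ℕ → ℂ → ℂ) (α : ℂ) : pt w0 z α 0 = α := by
  simp [pt]

theorem pt_succ (w0 : ℝ) (z : ℕ → ℂ → ℂ) (α : ℂ) (i : ℕ) :
    pt w0 z α (i+1) = pt w0 z α i + w0 + z i α := by
  simp only [pt, Finset.sum_range_succ]
  push_cast
  ring

/-- the last estimate, abstract version -/
theorem final_bound (hP : Prm ρ r s δ Λ η M) (E Ez : ℂ → ℂ → ℂ)
    (hd : DifferentiableOn ℂ (fun β => E β 0) (strip (r - 2*δ)))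
    (hd' : ∀ β ∈ strip (r - 2*δ), ‖deriv (fun β => E β 0) β‖ ≤ Λ * η)
    (hQ2 : ∀ α ∈ strip (r - 2*δ), ∀ z : ℂ, ‖z‖ < δ →
      ‖E α z - E α 0 - Ez α 0 * z‖ ≤ 2 * ‖z‖ ^ 2)
    (hFF : ∀ α ∈ strip (r - 2*δ), ‖Ez α 0‖ ≤ 20 * Λ * η)
    (m : ℕ) (hmΛ : (m:ℝ) ≤ Λ) (w0 : ℝ) (z : ℕ → ℂ → ℂ) (α : ℂ) (hα : α ∈ strip (r - 4*δ))
    (hz : ∀ i, ‖z i α‖ ≤ Λ^6 * η) (hpt : ∀ i, i ≤ m → pt w0 z α i ∈ strip (r - 3*δ)) (C : ℂ)
    (hsum : ∑ i ∈ Finset.range m, E (pt w0 z α i) (z i α) = C) :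
    ‖∑ i ∈ Finset.range m, E (α + i * (w0:ℂ)) 0 - C‖ ≤ Λ^14 * η^2 := by
  obtain ⟨n7, n6, nδ, n12⟩ := num_facts hP
  have hδ0 := hP.hδ0
  have hη0 := hP.hη0
  have hL : (1024:ℝ) ≤ Λ := hP.hΛ
  have hL0 : (0:ℝ) < Λ := by linarith
  have p1 : (1:ℝ) ≤ Λ := by linarith
  have hν : 0 < Λ^6 * η := by positivity
  have hterm : ∀ i ∈ Finset.range m, ‖E (α + i * (w0:ℂ)) 0 - E (pt w0 z α i) (z i α)‖
      ≤ 4 * (Λ^12 * η^2) := by
    intro i hi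
    have him : i < m := Finset.mem_range.1 hi
    have hp : pt w0 z α i ∈ strip (r - 2*δ) := strip_mono (by linarith) (hpt i him.le)
    have hq : α + i * (w0:ℂ) ∈ strip (r - 2*δ) := by
      have h1 : |α.im| < r - 4*δ := hα
      change |(α + i * (w0:ℂ)).im| < r - 2*δ
      have h2 : (α + i * (w0:ℂ)).im = α.im := by simp
      rw [h2]
      linarith
    have h1 := lip_of_deriv (isOpen_strip _) (convex_strip _) hd hd' _ hq _ hp
    have h2 : α + i * (w0:ℂ) - pt w0 z α i = - ∑ l ∈ Finset.range i, z l α := by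
      simp only [pt]
      ring
    have h3 : ‖α + i * (w0:ℂ) - pt w0 z α i‖ ≤ Λ * (Λ^6 * η) := by
      rw [h2, norm_neg]
      calc ‖∑ l ∈ Finset.range i, z l α‖ ≤ ∑ l ∈ Finset.range i, ‖z l α‖ := norm_sum_le _ _
        _ ≤ ∑ _l ∈ Finset.range i, Λ^6 * η := Finset.sum_le_sum fun l _ => hz l
        _ = i * (Λ^6 * η) := by simp
        _ ≤ Λ * (Λ^6 * η) := by
          apply mul_le_mul_of_nonneg_right _ hν.le
          have : (i:ℝ) ≤ m := by exact_mod_cast him.le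
          linarith
    have h4 : ‖E (α + i * (w0:ℂ)) 0 - E (pt w0 z α i) 0‖ ≤ Λ * η * (Λ * (Λ^6 * η)) :=
      h1.trans (mul_le_mul_of_nonneg_left h3 (by positivity))
    have hzi := hz i
    have h5 := hQ2 _ hp (z i α) (by linarith)
    have h6 := hFF _ hp
    have h7 : ‖Ez (pt w0 z α i) 0 * z i α‖ ≤ 20 * Λ * η * (Λ^6 * η) := by
      rw [norm_mul]
      exact mul_le_mul h6 hzi (norm_nonneg _) (by positivity)
    have h8 : 2 * ‖z i α‖ ^ 2 ≤ 2 * (Λ^6 * η) ^ 2 := by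
      have := pow_le_pow_left₀ (norm_nonneg _) hzi 2
      linarith
    have h9 : ‖E (pt w0 z α i) 0 - E (pt w0 z α i) (z i α)‖
        ≤ 2 * (Λ^6 * η) ^ 2 + 20 * Λ * η * (Λ^6 * η) := by
      have e : E (pt w0 z α i) 0 - E (pt w0 z α i) (z i α)
          = -(E (pt w0 z α i) (z i α) - E (pt w0 z α i) 0 - Ez (pt w0 z α i) 0 * z i α)
            - Ez (pt w0 z α i) 0 * z i α := by ring
      rw [e]
      have := norm_sub_le (-(E (pt w0 z α i) (z i α) - E (pt w0 z α i) 0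
        - Ez (pt w0 z α i) 0 * z i α)) (Ez (pt w0 z α i) 0 * z i α)
      rw [norm_neg] at this
      linarith
    have h10 : ‖E (α + i * (w0:ℂ)) 0 - E (pt w0 z α i) (z i α)‖
        ≤ ‖E (α + i * (w0:ℂ)) 0 - E (pt w0 z α i) 0‖
          + ‖E (pt w0 z α i) 0 - E (pt w0 z α i) (z i α)‖ :=
      norm_sub_le_norm_sub_add_norm_sub _ _ _
    have h11 : Λ * η * (Λ * (Λ^6 * η)) = Λ^8 * η^2 := by ring
    have h12 : 2 * (Λ^6 * η) ^ 2 + 20 * Λ * η * (Λ^6 * η) = 2 * (Λ^12 * η^2)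
        + 20 * (Λ^7 * η^2) := by ring
    have h13 : Λ^8 * η^2 ≤ Λ^12 * η^2 := by
      apply mul_le_mul_of_nonneg_right _ (by positivity)
      exact pow_le_pow_right₀ p1 (by norm_num)
    have h14 : 20 * (Λ^7 * η^2) ≤ Λ^12 * η^2 := by
      have e : Λ^12 * η^2 = Λ^5 * (Λ^7 * η^2) := by ring
      rw [e]
      apply mul_le_mul_of_nonneg_right _ (by positivity)
      calc (20:ℝ) ≤ Λ := by linarith
        _ ≤ Λ ^ 5 := le_self_pow₀ p1 (by norm_num)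
    linarith
  rw [← hsum, ← Finset.sum_sub_distrib]
  calc ‖∑ i ∈ Finset.range m, (E (α + i * (w0:ℂ)) 0 - E (pt w0 z α i) (z i α))‖
      ≤ ∑ i ∈ Finset.range m, ‖E (α + i * (w0:ℂ)) 0 - E (pt w0 z α i) (z i α)‖ :=
        norm_sum_le _ _
    _ ≤ ∑ _i ∈ Finset.range m, 4 * (Λ^12 * η^2) := Finset.sum_le_sum hterm
    _ = m * (4 * (Λ^12 * η^2)) := by simp
    _ ≤ Λ * (Λ * (Λ^12 * η^2)) := by
      apply mul_le_mul hmΛ _ (by positivity) hL0.le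
      apply mul_le_mul_of_nonneg_right (by linarith) (by positivity)
    _ = Λ^14 * η^2 := by ring

end

end Pool.Agent.Helper10.TW
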