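import Pool.Agent.Helper10.TW.ResB2

/-! Packet TW-GRESB, part 3: sums of the error over resonant orbits. -/

set_option autoImplicit false

namespace Pool.Agent.Helper10.TW

open Complex Set Pool.Agent.Helper83.TW Filter Topology

theorem per_nat {f : ℂ × ℂ → ℂ} {r s : ℝ} (hf : Hol f (Dom r s)) (k : ℕ) :
    ∀ p ∈ Dom r s, f (p.1 + k, p.2) = f p ∧ ((p.1 + k, p.2) : ℂ × ℂ) ∈ Dom r s := by
  induction k with
  | zero =>
    intro p hp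
    exact ⟨by simp, by simpa using hp⟩
  | succ k ih =>
    intro p hp
    obtain ⟨h1, h2⟩ := ih p hp
    have h3 := hf.per _ h2
    have h4 := Dom_shift h2
    simp only at h3 h4
    have e : p.1 + ((k + 1 : ℕ) : ℂ) = p.1 + k + 1 := by push_cast; ring
    rw [e]
    exact ⟨h3.trans h1, h4⟩

theorem comp2 {F : ℂ → ℂ → ℂ} {R δ : ℝ} {U : Set ℂ}
    (h : DifferentiableOn ℂ (fun q : ℂ × ℂ => F q.1 q.2) {q | |q.1.im| < R ∧ ‖q.2‖ < δ})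
    {a b : ℂ → ℂ} (ha : DifferentiableOn ℂ a U) (hb : DifferentiableOn ℂ b U)
    (hm : ∀ x ∈ U, |(a x).im| < R ∧ ‖b x‖ < δ) :
    DifferentiableOn ℂ (fun x => F (a x) (b x)) U :=
  h.comp (ha.prodMk hb) hm

theorem exists_real_of_sym {f : ℂ × ℂ → ℂ} {r s : ℝ} (hf : Hol f (Dom r s)) (a w : ℝ)
    (h : ((a:ℂ), (w:ℂ)) ∈ Dom r s) : ∃ y : ℝ, f ((a:ℂ), (w:ℂ)) = (y:ℂ) := by
  have h1 := hf.sym _ h
  simp only [cj, Complex.conj_ofReal] at h1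
  obtain ⟨y, hy⟩ := Complex.conj_eq_iff_real.1 h1.symm
  exact ⟨y, hy⟩

section

variable {ρ r s δ Λ η : ℝ} {M : ℕ} {g : ℂ × ℂ → ℂ} {S : St} {c : ℝ}

/-- the sum over a real perturbed orbit is a constant -/
theorem real_sum (hE1 : GEE1) (hP : Prm ρ r s δ Λ η M) (hg : GB g ρ) (hS : Ok S r s c)
    (hc : c ≤ ρ/64) (m : ℕ) (j : ℤ) (hm : 1 ≤ m)
    (hj1 : 1 - 3/4 * s < (j:ℝ) / m) (hj2 : (j:ℝ) / m < 2 + 3/4 * s) (C0 : ℂ)
    (hC0 : ∀ x : ℕ → ℝ,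
      (∀ i, i < m → 1/2 < x (i+1) - x i ∧ x (i+1) - x i < 5/2) →
      x m = x 0 + j →
      (∀ i, i + 1 < m → EL g (x i) (x (i+1)) (x (i+2))) →
      ∑ i ∈ Finset.range m, ell g (x i) ((x (i+1) - x i : ℝ) : ℂ) = C0)
    (z : ℕ → ℂ → ℂ) (t : ℝ)
    (hz1 : ∀ i, ‖z i (t:ℂ)‖ ≤ Λ^6 * η ∧ z i (cj (t:ℂ)) = cj (z i (t:ℂ)))
    (hz3 : ∑ i ∈ Finset.range m, z i (t:ℂ) = 0)
    (hz4 : ∀ i, i + 1 < m →
      EEz g S (pt ((j:ℝ)/m) z (t:ℂ) (i+1)) (z (i+1) (t:ℂ)) (((j:ℝ)/m : ℝ) : ℂ)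
        = EEz g S (pt ((j:ℝ)/m) z (t:ℂ) i) (z i (t:ℂ)) (((j:ℝ)/m : ℝ) : ℂ)
          + EEa g S (pt ((j:ℝ)/m) z (t:ℂ) (i+1)) (z (i+1) (t:ℂ)) (((j:ℝ)/m : ℝ) : ℂ)) :
    ∑ i ∈ Finset.range m, EE g S (pt ((j:ℝ)/m) z (t:ℂ) i) (z i (t:ℂ)) (((j:ℝ)/m : ℝ) : ℂ)
      = C0 - S.a (((j:ℝ)/m : ℝ) : ℂ) * (j:ℂ) + m * S.γ (((j:ℝ)/m : ℝ) : ℂ) := by
  obtain ⟨hE, -, -, -⟩ := hE1 ρ r s δ Λ η M hP g hg S c hS hc
  obtain ⟨n7, n6, nδ, n12⟩ := num_facts hP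
  have hδ0 := hP.hδ0
  have hs0 := hP.hs0
  have hρ0 := hP.hρ0
  have hr0 := hP.hr0
  have hρ1 := hP.hρ1
  have hη0 := hP.hη0
  have hL : (1024:ℝ) ≤ Λ := hP.hΛ
  have hL0 : (0:ℝ) < Λ := by linarith
  have hν : 0 < Λ^6 * η := by positivity
  have hm0 : (0:ℝ) < m := by exact_mod_cast hm
  have hs1 : s ≤ 1/4 := by linarith [hP.hs1, hP.hδ1]
  obtain ⟨w0, hw0⟩ : ∃ w0 : ℝ, w0 = (j:ℝ)/m := ⟨_, rfl⟩
  rw [← hw0] at hj1 hj2 hz4 ⊢
  have hmw : (m:ℝ) * w0 = j := by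
    rw [hw0]; field_simp
  have hw : ((w0:ℝ):ℂ) ∈ Om s := Om_real (by linarith) (by linarith) hs0
  -- j is a natural number
  have hjpos : (0:ℝ) < j := by
    rw [← hmw]
    have : 0 < w0 := by linarith
    positivity
  obtain ⟨k, hk⟩ : ∃ k : ℕ, j = (k:ℤ) := by
    have : 0 < j := by exact_mod_cast hjpos
    exact ⟨j.toNat, by omega⟩
  -- real values
  have hzr : ∀ i, ∃ y : ℝ, z i (t:ℂ) = (y:ℂ) := by
    intro i
    have h1 := (hz1 i).2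
    simp only [cj, Complex.conj_ofReal] at h1
    exact Complex.conj_eq_iff_real.1 h1.symm
  choose zr hzr using hzr
  obtain ⟨a, ha⟩ : ∃ a : ℕ → ℝ, ∀ i, a i = t + i * w0 + ∑ l ∈ Finset.range i, zr l :=
    ⟨_, fun _ => rfl⟩
  have hpa : ∀ i, pt w0 z (t:ℂ) i = (a i : ℂ) := by
    intro i
    rw [ha i]
    simp only [pt, hzr]
    push_cast
    rfl
  have hasucc : ∀ i, a (i+1) = a i + w0 + zr i := by
    intro i
    rw [ha (i+1), ha i, Finset.sum_range_succ]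
    push_cast
    ring
  have hD : ∀ y : ℝ, ((y:ℂ), (w0:ℂ)) ∈ Dom r s := by
    intro y
    refine ⟨?_, hw⟩
    change |((y:ℂ)).im| < r
    rw [Complex.ofReal_im, abs_zero]
    linarith
  have hur : ∀ i, ∃ y : ℝ, S.u ((a i : ℂ), (w0:ℂ)) = (y:ℂ) := fun i =>
    exists_real_of_sym hS.hu (a i) w0 (hD _)
  choose ur hur using hur
  obtain ⟨x, hx⟩ : ∃ x : ℕ → ℝ, ∀ i, x i = a i + ur i := ⟨_, fun _ => rfl⟩
  have hhx : ∀ i, hh S ((a i : ℂ), (w0:ℂ)) = (x i : ℂ) := by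
    intro i
    simp only [hh, hur, hx]
    push_cast
    rfl
  have haz : ∀ i, (a i : ℂ) + (w0:ℂ) + z i (t:ℂ) = (a (i+1) : ℂ) := by
    intro i
    rw [hzr i, hasucc i]
    push_cast
    ring
  have hde : ∀ i, de S (a i : ℂ) (z i (t:ℂ)) (w0:ℂ) = ((x (i+1) - x i : ℝ) : ℂ) := by
    intro i
    simp only [de]
    rw [haz i, hur, hur, hx, hx, hasucc i, hzr i]
    push_cast
    ring
  have hzδ : ∀ i, ‖z i (t:ℂ)‖ < δ := fun i => lt_of_le_of_lt (hz1 i).1 (by linarith)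
  have hdom : ∀ i, (hh S ((a i : ℂ), (w0:ℂ)), de S (a i : ℂ) (z i (t:ℂ)) (w0:ℂ)) ∈ DGh ρ := by
    intro i
    refine (hE (a i : ℂ) (z i (t:ℂ)) (w0:ℂ) ?_ (hzδ i) hw).1
    rw [Complex.ofReal_im, abs_zero]
    linarith
  have hx1 : ∀ i, i < m → 1/2 < x (i+1) - x i ∧ x (i+1) - x i < 5/2 := by
    intro i _
    have h1 := hdom i
    rw [hhx, hde] at h1
    obtain ⟨-, h2, h3, -⟩ := h1
    simp only [Complex.ofReal_re] at h2 h3
    exact ⟨h2, h3⟩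
  have ham : a m = a 0 + j := by
    have h1 : ((∑ l ∈ Finset.range m, zr l : ℝ) : ℂ) = 0 := by
      rw [← hz3]
      push_cast
      exact Finset.sum_congr rfl fun i _ => (hzr i).symm
    have h2 : (∑ l ∈ Finset.range m, zr l : ℝ) = 0 := by exact_mod_cast h1
    rw [ha m, ha 0, h2, hmw]
    simp
  have hamk : (a m : ℂ) = (a 0 : ℂ) + (k:ℂ) := by
    rw [ham, hk]
    push_cast
    rfl
  have hx2 : x m = x 0 + j := by
    have h1 := (per_nat hS.hu k _ (hD (a 0))).1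
    simp only at h1
    rw [← hamk, hur, hur] at h1
    have h2 : ur m = ur 0 := by exact_mod_cast h1
    rw [hx m, hx 0, ham, h2]
    ring
  have hvm : S.v ((a m : ℂ), (w0:ℂ)) = S.v ((a 0 : ℂ), (w0:ℂ)) := by
    have h1 := (per_nat hS.hv k _ (hD (a 0))).1
    simp only at h1
    rw [← hamk] at h1
    exact h1
  have hx3 : ∀ i, i + 1 < m → EL g (x i) (x (i+1)) (x (i+2)) := by
    intro i hi
    have h1 := hz4 i hi
    simp only [hpa] at h1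
    simp only [EEz, EEa] at h1
    rw [haz i, haz (i+1), hhx, hhx, hde, hde] at h1
    have h2 : (1 + D1 S.u ((a (i+1) : ℂ), (w0:ℂ))) ≠ 0 := by
      intro h0
      have h3 := hS.bu1 _ (hD (a (i+1)))
      have h4 : D1 S.u ((a (i+1) : ℂ), (w0:ℂ)) = -1 := by linear_combination h0
      rw [h4] at h3
      simp only [norm_neg, norm_one] at h3
      linarith
    have h5 : (1 + D1 S.u ((a (i+1) : ℂ), (w0:ℂ))) *
        ((((x (i+1) - x i : ℝ) : ℂ) + D2 g ((x i : ℂ), ((x (i+1) - x i : ℝ) : ℂ)))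
        - (((x (i+1+1) - x (i+1) : ℝ) : ℂ) + D2 g ((x (i+1) : ℂ),
          ((x (i+1+1) - x (i+1) : ℝ) : ℂ))
          - D1 g ((x (i+1) : ℂ), ((x (i+1+1) - x (i+1) : ℝ) : ℂ)))) = 0 := by
      linear_combination (-1 : ℂ) * h1
    have h6 := (mul_eq_zero.1 h5).resolve_left h2
    exact sub_eq_zero.1 h6
  have hsum := hC0 x hx1 hx2 hx3
  have hterm : ∀ i ∈ Finset.range m, EE g S (pt w0 z (t:ℂ) i) (z i (t:ℂ)) (w0:ℂ)
      = ell g (x i) ((x (i+1) - x i : ℝ) : ℂ) - S.a (w0:ℂ) * ((w0:ℂ) + z i (t:ℂ))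
        - (S.v ((a (i+1) : ℂ), (w0:ℂ)) - S.v ((a i : ℂ), (w0:ℂ))) + S.γ (w0:ℂ) := by
    intro i _
    rw [hpa i]
    simp only [EE]
    rw [haz i, hhx, hde]
    rfl
  rw [Finset.sum_congr rfl hterm, Finset.sum_add_distrib, Finset.sum_sub_distrib,
    Finset.sum_sub_distrib, hsum, Finset.sum_range_sub
      (fun i => S.v ((a i : ℂ), (w0:ℂ))) m, hvm, ← Finset.mul_sum, Finset.sum_add_distrib, hz3]
  simp only [Finset.sum_const, Finset.card_range, nsmul_eq_mul]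
  have hmwc : (m:ℂ) * (w0:ℂ) = (j:ℂ) := by
    have := congrArg (fun y : ℝ => (y:ℂ)) hmw
    simpa using this
  linear_combination (-S.a (w0:ℂ)) * hmwc

end

theorem gresb (hE1 : GEE1) (hE2 : GEE2) (hF : GF) (hA : GRESA) (hC : GCau) : GRESB := by
  intro ρ r s δ Λ η M hP g hg hper S c hS hc hη m j hm hmM hj1 hj2
  obtain ⟨hE, hEd, hErr, -⟩ := hE1 ρ r s δ Λ η M hP g hg S c hS hc
  obtain ⟨hQ1, hQ2⟩ := hE2 ρ r s δ Λ η M hP g hg S c hS hc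
  obtain ⟨hD1, hFF⟩ := err_bounds hE1 hF hC hP hg hS hc hη
  obtain ⟨n7, n6, nδ, n12⟩ := num_facts hP
  have hδ0 := hP.hδ0
  have hs0 := hP.hs0
  have hρ0 := hP.hρ0
  have hr0 := hP.hr0
  have hρ1 := hP.hρ1
  have hs1 : s ≤ 1/512 := by linarith [hP.hs1, hP.hδ1]
  have hw34 : (((j:ℝ)/m : ℝ):ℂ) ∈ Om (3/4*s) := Om_real hj1 hj2 (by linarith)
  have hw : (((j:ℝ)/m : ℝ):ℂ) ∈ Om s := Om_mono (by linarith) hw34
  obtain ⟨C0, hC0⟩ := hper m j hm (by linarith) (by linarith)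
  obtain ⟨w, hwdef⟩ : ∃ w : ℂ, w = (((j:ℝ)/m : ℝ):ℂ) := ⟨_, rfl⟩
  have hwreal : cj w = w := by
    rw [hwdef]
    simp [cj]
  have hmΛ : (m:ℝ) ≤ Λ := by
    have : (m:ℝ) ≤ M := by exact_mod_cast hmM
    linarith [hP.hMΛ]
  rw [← hwdef] at hw34 hw
  have hd1 : ∀ α ∈ strip (r - 2*δ), ∀ z : ℂ, ‖z‖ < δ →
      HasDerivAt (fun y => EE g S α y w) (EEz g S α z w) z :=
    fun α hα z hz => (hE α z w hα hz hw).2.1
  have hd2 : ∀ α ∈ strip (r - 2*δ), ∀ z : ℂ, ‖z‖ < δ →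
      HasDerivAt (fun β => EE g S β z w) (EEa g S α z w) α :=
    fun α hα z hz => (hE α z w hα hz hw).2.2.1
  have hsz : ∀ α ∈ strip (r - 2*δ), ∀ z : ℂ, ‖z‖ < δ →
      EEz g S (cj α) (cj z) w = cj (EEz g S α z w) := by
    intro α hα z hz
    have := (hE α z w hα hz hw).2.2.2.2.1
    rwa [hwreal] at this
  have hsa : ∀ α ∈ strip (r - 2*δ), ∀ z : ℂ, ‖z‖ < δ →
      EEa g S (cj α) (cj z) w = cj (EEa g S α z w) := by
    intro α hα z hz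
    have := (hE α z w hα hz hw).2.2.2.2.2
    rwa [hwreal] at this
  have hQ1' : ∀ α ∈ strip (r - 2*δ), ∀ z z' : ℂ, ‖z‖ < δ → ‖z'‖ < δ →
      ‖(EEz g S α z w - z) - (EEz g S α z' w - z')‖ ≤ ‖z - z'‖ / 16 :=
    fun α hα z z' hz hz' => hQ1 α z z' w hα hz hz' hw
  have hQ2' : ∀ α ∈ strip (r - 2*δ), ∀ z : ℂ, ‖z‖ < δ →
      ‖EE g S α z w - EE g S α 0 w - EEz g S α 0 w * z‖ ≤ 2 * ‖z‖ ^ 2 :=
    fun α hα z hz => hQ2 α z w hα hz hw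
  have hη' : ∀ α ∈ strip (r - 2*δ), ‖EE g S α 0 w‖ ≤ η :=
    fun α hα => hη (α, w) (Dom_mono (by linarith) le_rfl ⟨hα, hw⟩)
  have hFF' : ∀ α ∈ strip (r - 2*δ), ‖EEz g S α 0 w‖ ≤ 20 * Λ * η :=
    fun α hα => hFF (α, w) ⟨hα, hw34⟩
  obtain ⟨z, hz1, hz2⟩ := resA_apply hA hC hP (fun α y => EE g S α y w)
    (fun α y => EEz g S α y w) (fun α y => EEa g S α y w) hd1 hd2 (hEd w hw).2.1
    (hEd w hw).2.2 hsz hsa hQ1' hQ2' hη' hFF' m hm hmΛ ((j:ℝ)/m)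
  obtain ⟨C, hCdef⟩ : ∃ C : ℂ, C = C0 - S.a w * (j:ℂ) + m * S.γ w := ⟨_, rfl⟩
  refine ⟨C, ?_⟩
  have hreal : ∀ t : ℝ, ∑ i ∈ Finset.range m, EE g S (pt ((j:ℝ)/m) z (t:ℂ) i) (z i (t:ℂ)) w
      = C := by
    intro t
    have ht : (t:ℂ) ∈ strip (r - 4*δ) := by
      change |((t:ℂ)).im| < r - 4*δ
      rw [Complex.ofReal_im, abs_zero]
      linarith
    obtain ⟨q1, q2, q3, q4⟩ := hz2 (t:ℂ) ht
    rw [hwdef] at q4 hCdef ⊢
    rw [hCdef]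
    exact real_sum hE1 hP hg hS hc m j hm hj1 hj2 C0 hC0 z t q1 q3 q4
  have hdiff : DifferentiableOn ℂ (fun α => ∑ i ∈ Finset.range m,
      EE g S (pt ((j:ℝ)/m) z α i) (z i α) w) (strip (r - 4*δ)) := by
    apply DifferentiableOn.fun_sum
    intro i hi
    have h1 := (hEd w hw).1
    have h2 : DifferentiableOn ℂ (fun α => pt ((j:ℝ)/m) z α i) (strip (r - 4*δ)) := by
      simp only [pt]
      apply DifferentiableOn.add
      · fun_prop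
      · apply DifferentiableOn.fun_sum
        intro l _
        exact hz1 l
    have h4 : ∀ α ∈ strip (r - 4*δ), |(pt ((j:ℝ)/m) z α i).im| < r - 2*δ ∧ ‖z i α‖ < δ := by
      intro α hα
      obtain ⟨q1, q2, q3, q4⟩ := hz2 α hα
      have h5 : pt ((j:ℝ)/m) z α i ∈ strip (r - 3*δ) := q2 i (Finset.mem_range.1 hi).le
      have h6 : pt ((j:ℝ)/m) z α i ∈ strip (r - 2*δ) := strip_mono (by linarith) h5
      exact ⟨h6, lt_of_le_of_lt (q1 i).1 (by linarith [norm_nonneg (z i α), (q1 i).1])⟩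
    exact comp2 (F := fun α y => EE g S α y w) h1 h2 (hz1 i) h4
  have hconst := eq_const_of_real (R := r - 4*δ) (by linarith) hdiff hreal
  intro α hα
  obtain ⟨q1, q2, q3, q4⟩ := hz2 α hα
  have hdE : DifferentiableOn ℂ (fun β => EE g S β 0 w) (strip (r - 2*δ)) := by
    intro β hβ
    exact (hd2 β hβ 0 (by simpa using hδ0)).differentiableAt.differentiableWithinAt
  have hdE' : ∀ β ∈ strip (r - 2*δ), ‖deriv (fun β => EE g S β 0 w) β‖ ≤ Λ * η := by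
    intro β hβ
    exact hD1 (β, w) ⟨hβ, hw⟩
  have hfin := final_bound hP (fun α y => EE g S α y w) (fun α y => EEz g S α y w) hdE hdE' hQ2'
    hFF' m hmΛ ((j:ℝ)/m) z α hα (fun i => (q1 i).1) q2 C (hconst α hα)
  rw [← hwdef] at hfin ⊢
  exact hfin

end Pool.Agent.Helper10.TW
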